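import Mathlib
import Pool.Agent.Helper894.Div.Core
import Pool.Agent.Helper894.Div.KL

set_option autoImplicit false

/-! A maximal chamber with few positive coordinates has at least two positive coloops, unless
there is a vector of the space with exactly two nonzero coordinates. -/

namespace Pool.Agent.Y584.DV.LemA

open Finset Module Filter Topology Pool.Agent.Helper894.Div.Core Pool.Agent.Helper894.Div.KL

variable {ι : Type*} [Fintype ι] [DecidableEq ι]

lemma mpos (y : ι → ℝ) (i : ι) : i ∈ pos y ↔ 0 < y i := Pool.Agent.Helper894.Div.KL.mem_pos y i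
lemma mneg (y : ι → ℝ) (i : ι) : i ∈ neg y ↔ y i < 0 := Pool.Agent.Helper894.Div.KL.mem_neg y i

/-- Crossing exactly one wall, in a direction that does not increase the negative coordinates. -/
lemma flip2 (y z : ι → ℝ) (hnz : ∀ i, y i ≠ 0)
    (hz0 : ∀ i, y i < 0 → z i ≤ 0) (hex : ∃ i, 0 < y i ∧ z i < 0)
    (hdist : ∀ i j, i ≠ j → 0 < y i → 0 < y j → z i < 0 → z j < 0 → y i * z j ≠ y j * z i) :
    ∃ e, 0 < y e ∧ z e < 0 ∧ ∃ t : ℝ, y e + t * z e < 0 ∧ ∀ i, i ≠ e → 0 < y i * (y i + t * z i) := by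
  classical
  obtain ⟨i₀, hi₀, hi₀'⟩ := hex
  obtain ⟨e, he, hmin⟩ := Finset.exists_min_image (univ.filter (fun i => 0 < y i ∧ z i < 0))
    (fun i => y i / (- z i)) ⟨i₀, by simp [hi₀, hi₀']⟩
  have hye : 0 < y e := (mem_filter.mp he).2.1
  have hze : z e < 0 := (mem_filter.mp he).2.2
  set t1 := y e / (- z e) with ht1
  have ht1pos : 0 < t1 := div_pos hye (by linarith)
  have hstrict : ∀ i, i ≠ e → 0 < y i → z i < 0 → 0 < y i + t1 * z i := by
    intro i hi hyi hzi
    have h1 : t1 ≤ y i / (- z i) := hmin i (by simp [hyi, hzi])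
    have h2 : t1 ≠ y i / (- z i) := by
      intro heq
      rw [ht1, div_eq_div_iff (by linarith) (by linarith)] at heq
      exact hdist e i (Ne.symm hi) hye hyi hze hzi (by linarith)
    have h3 : t1 < y i / (- z i) := lt_of_le_of_ne h1 h2
    rw [lt_div_iff₀ (by linarith)] at h3
    linarith
  have ev : ∀ᶠ δ in 𝓝[>] (0 : ℝ), ∀ i, i ≠ e → 0 < y i * (y i + (t1 + δ) * z i) := by
    rw [Filter.eventually_all]
    intro i
    by_cases hi : i = e
    · exact Eventually.of_forall (fun _ h => absurd hi h)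
    have hpos' : ∀ᶠ δ in 𝓝[>] (0 : ℝ), 0 < δ := eventually_mem_nhdsWithin
    rcases lt_or_gt_of_ne (hnz i) with h | h
    · filter_upwards [hpos'] with δ hδ _
      have h4 := hz0 i h
      have h5 : (t1 + δ) * z i ≤ 0 := mul_nonpos_of_nonneg_of_nonpos (by linarith) h4
      exact mul_pos_of_neg_of_neg h (by linarith)
    · rcases lt_or_ge (z i) 0 with h' | h'
      · have hc : Tendsto (fun δ : ℝ => y i * (y i + (t1 + δ) * z i)) (𝓝[>] 0)
            (𝓝 (y i * (y i + (t1 + 0) * z i))) := by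
          apply Tendsto.mono_left _ nhdsWithin_le_nhds
          apply Continuous.tendsto
          fun_prop
        have hp : 0 < y i * (y i + (t1 + 0) * z i) := by
          rw [add_zero]
          exact mul_pos h (hstrict i hi h h')
        filter_upwards [hc.eventually (lt_mem_nhds hp)] with δ hδ _
        exact hδ
      · filter_upwards [hpos'] with δ hδ _
        apply mul_pos h
        have : 0 ≤ (t1 + δ) * z i := mul_nonneg (by linarith) h'
        linarith
  have hpos' : ∀ᶠ δ in 𝓝[>] (0 : ℝ), 0 < δ := eventually_mem_nhdsWithin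
  obtain ⟨δ, hδ, hδ0⟩ := (ev.and hpos').exists
  refine ⟨e, hye, hze, t1 + δ, ?_, hδ⟩
  have : t1 * z e = - y e := by
    have hne : (- z e) ≠ 0 := by linarith
    have h3 : t1 * (- z e) = y e := div_mul_cancel₀ _ hne
    linarith
  have h2 : δ * z e < 0 := mul_neg_of_pos_of_neg hδ0 hze
  linarith [add_mul t1 δ (z e)]

/-- Crossing one wall inside `L`. -/
lemma step (L : Submodule ℝ (ι → ℝ)) (h : Nice L)
    (y : ι → ℝ) (hy : y ∈ L) (hnz : ∀ i, y i ≠ 0)
    (z : ι → ℝ) (hz : z ∈ L) (hzn : ∀ i ∈ neg y, z i ≤ 0) (hex : ∃ i ∈ pos y, z i < 0) :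
    ∃ e ∈ pos y, z e < 0 ∧ ∃ y'' ∈ L, (∀ i, y'' i ≠ 0) ∧
      pos y'' = (pos y).erase e ∧ neg y'' = insert e (neg y) := by
  classical
  let g : ι × ι → ((ι → ℝ) →ₗ[ℝ] ℝ) := fun p =>
    z p.2 • (LinearMap.proj p.1 : (ι → ℝ) →ₗ[ℝ] ℝ) - z p.1 • (LinearMap.proj p.2 : (ι → ℝ) →ₗ[ℝ] ℝ)
  obtain ⟨y', hy', h1, h2⟩ := perturb L y hy
    ((univ.filter (fun p : ι × ι => p.1 ≠ p.2 ∧ z p.1 < 0 ∧ z p.2 < 0)).image g)
    (by
      intro f hf
      obtain ⟨p, hp, rfl⟩ := mem_image.mp hf
      obtain ⟨-, hne, hp1, hp2⟩ := mem_filter.mp hp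
      obtain ⟨v, hv, hvne⟩ := h.dist p.1 p.2 hne (z p.2 / z p.1) (div_pos_of_neg_of_neg hp2 hp1)
      refine ⟨v, hv, ?_⟩
      simp only [g, LinearMap.sub_apply, LinearMap.smul_apply, LinearMap.proj_apply, smul_eq_mul]
      intro heq
      apply hvne
      rw [div_mul_eq_mul_div, eq_div_iff hp1.ne]
      linarith)
  have hnz' : ∀ i, y' i ≠ 0 := by
    intro i hi
    have := h1 i (hnz i)
    rw [hi, mul_zero] at this
    exact lt_irrefl _ this
  have hs1 : ∀ i, (0 < y' i ↔ 0 < y i) := fun i => (pos_iff_pos_of_mul_pos (h1 i (hnz i))).symm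
  have hs2 : ∀ i, (y' i < 0 ↔ y i < 0) := fun i => (neg_iff_neg_of_mul_pos (h1 i (hnz i))).symm
  obtain ⟨e, hye', hze, t, ht1, ht2⟩ := flip2 y' z hnz'
    (by
      intro i hi
      exact hzn i ((mneg y i).mpr ((hs2 i).mp hi)))
    (by
      obtain ⟨i, hi, hi'⟩ := hex
      exact ⟨i, (hs1 i).mpr ((mpos y i).mp hi), hi'⟩)
    (by
      intro i j hij _ _ hzi hzj
      have := h2 (g (i, j)) (mem_image_of_mem _ (by simp [hij, hzi, hzj]))
      simp only [g, LinearMap.sub_apply, LinearMap.smul_apply, LinearMap.proj_apply,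
        smul_eq_mul] at this
      intro heq
      apply this
      linarith)
  have hye : 0 < y e := (hs1 e).mp hye'
  have hsg : ∀ i, i ≠ e → 0 < y i * (y' i + t * z i) := by
    intro i hi
    have a := h1 i (hnz i)
    have b := ht2 i hi
    have c : 0 < (y i * y' i) * (y' i * (y' i + t * z i)) := mul_pos a b
    have d : (y i * y' i) * (y' i * (y' i + t * z i)) = (y' i)^2 * (y i * (y' i + t * z i)) := by
      ring
    rw [d] at c
    have hy2 : 0 < (y' i)^2 := by
      have := hnz' i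
      positivity
    exact (mul_pos_iff_of_pos_left hy2).mp c
  have hnz'' : ∀ i, (y' + t • z) i ≠ 0 := by
    intro i
    simp only [Pi.add_apply, Pi.smul_apply, smul_eq_mul]
    by_cases hi : i = e
    · subst hi; exact ht1.ne
    · intro h0
      have := hsg i hi
      rw [h0, mul_zero] at this
      exact lt_irrefl _ this
  have hL'' : y' + t • z ∈ L := L.add_mem hy' (L.smul_mem _ hz)
  have hpos'' : pos (y' + t • z) = (pos y).erase e := by
    ext i
    rw [mem_erase, mpos, mpos]
    simp only [Pi.add_apply, Pi.smul_apply, smul_eq_mul]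
    by_cases hi : i = e
    · subst hi
      constructor
      · intro h; linarith
      · rintro ⟨h, -⟩; exact absurd rfl h
    · rw [← pos_iff_pos_of_mul_pos (hsg i hi)]
      exact ⟨fun h => ⟨hi, h⟩, fun h => h.2⟩
  have hneg'' : neg (y' + t • z) = insert e (neg y) := by
    ext i
    rw [mem_insert, mneg, mneg]
    simp only [Pi.add_apply, Pi.smul_apply, smul_eq_mul]
    by_cases hi : i = e
    · subst hi
      exact ⟨fun _ => Or.inl rfl, fun _ => ht1⟩
    · rw [← neg_iff_neg_of_mul_pos (hsg i hi)]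
      exact ⟨fun h => Or.inr h, fun h => h.resolve_left hi⟩
  exact ⟨e, (mpos y e).mpr hye, hze, y' + t • z, hL'', hnz'', hpos'', hneg''⟩

/-- If `g` is a coloop of `A` then the coloops of `A ∖ g` are coloops of `A`. -/
lemma col_of_erase (L : Submodule ℝ (ι → ℝ)) (A : Finset ι) (g : ι) (hg : g ∈ col L A) :
    col L (A.erase g) ⊆ (col L A).erase g := by
  intro e he
  rw [mem_col] at he hg
  have h1 := he.1
  rw [mem_erase] at h1
  rw [mem_erase]
  refine ⟨h1.1, ?_⟩
  rw [mem_col]
  refine ⟨h1.2, ?_⟩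
  have h2 := rk_insert_le L ((A.erase g).erase e) g
  have e1 : insert g ((A.erase g).erase e) = A.erase e := by
    ext x
    simp only [mem_insert, mem_erase]
    constructor
    · rintro (rfl | ⟨h3, h4, h5⟩)
      · exact ⟨Ne.symm h1.1, hg.1⟩
      · exact ⟨h3, h5⟩
    · rintro ⟨h3, h4⟩
      by_cases hx : x = g
      · exact Or.inl hx
      · exact Or.inr ⟨h3, hx, h4⟩
  rw [e1] at h2
  omega

/-- Among the chambers attaining the maximum `M`, there is one whose negative part has full rank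
and whose positive part is smallest possible. -/
lemma exists_min (L : Submodule ℝ (ι → ℝ)) (h : Nice L) (M : ℤ)
    (hmax : ∀ y ∈ L, (∀ i, y i ≠ 0) → rk L (pos y) + rk L (neg y) ≤ M)
    (hat : ∃ y ∈ L, (∀ i, y i ≠ 0) ∧ rk L (pos y) + rk L (neg y) = M) :
    ∃ y ∈ L, (∀ i, y i ≠ 0) ∧ rk L (pos y) + rk L (neg y) = M ∧ rk L (neg y) = finrank ℝ L ∧
      ∀ y' ∈ L, (∀ i, y' i ≠ 0) → rk L (pos y') + rk L (neg y') = M →
        rk L (neg y') = finrank ℝ L → (pos y).card ≤ (pos y').card := by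
  classical
  -- existence of a chamber with negative part of full rank
  have hfull : ∀ m : ℕ, ∀ y ∈ L, (∀ i, y i ≠ 0) → rk L (pos y) + rk L (neg y) = M →
      (finrank ℝ L : ℤ) - rk L (neg y) = m →
      ∃ y ∈ L, (∀ i, y i ≠ 0) ∧ rk L (pos y) + rk L (neg y) = M ∧
        rk L (neg y) = finrank ℝ L := by
    intro m
    induction m with
    | zero =>
      intro y hy hnz hM hm
      refine ⟨y, hy, hnz, hM, ?_⟩
      push_cast at hm
      omega
    | succ m ih =>
      intro y hy hnz hM hm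
      push_cast at hm
      have hpos : 0 < finrank ℝ (Lz L (neg y)) := by
        simp only [rk] at hm; omega
      have hn := Module.finrank_pos_iff.mp hpos
      obtain ⟨z, hz⟩ := exists_ne (0 : Lz L (neg y))
      obtain ⟨e, he, hze, y'', hy'', hnz'', hp'', hn''⟩ := star L h M hmax y hy hnz hM z z.2
        (fun h0 => hz (Subtype.ext h0))
      have hB : rk L (neg y'') = rk L (neg y) + 1 := by
        rw [hn'']
        have h1 := rk_insert_gt L (neg y) e z z.2 hze.ne
        have h2 := rk_insert_le L (neg y) e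
        omega
      have hA : rk L (pos y'') = rk L (pos y) - 1 := by
        rw [hp'']
        have h1 := ((mem_col L _ e).mp he).2
        have h2 := rk_insert_le L ((pos y).erase e) e
        rw [insert_erase ((mem_col L _ e).mp he).1] at h2
        omega
      exact ih y'' hy'' hnz'' (by rw [hA, hB]; omega) (by rw [hB]; omega)
  obtain ⟨y₀, hy₀, hnz₀, hM₀⟩ := hat
  obtain ⟨y₁, hy₁, hnz₁, hM₁, hr₁⟩ := hfull ((finrank ℝ L : ℤ) - rk L (neg y₀)).toNat y₀ hy₀ hnz₀
    hM₀ (by
      have := rk_le L (neg y₀)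
      omega)
  obtain ⟨p, hp, hmin⟩ := Finset.exists_min_image
    (univ.filter (fun p : Finset ι => ∃ y ∈ L, (∀ i, y i ≠ 0) ∧ pos y = p ∧
      rk L (pos y) + rk L (neg y) = M ∧ rk L (neg y) = finrank ℝ L))
    (fun p => p.card) ⟨pos y₁, by
      rw [mem_filter]
      exact ⟨mem_univ _, y₁, hy₁, hnz₁, rfl, hM₁, hr₁⟩⟩
  obtain ⟨-, y, hy, hnz, h1, h2, h3⟩ := mem_filter.mp hp
  refine ⟨y, hy, hnz, h2, h3, ?_⟩
  intro y' hy' hnz' hM' hr'
  rw [h1]
  exact hmin (pos y') (by
    rw [mem_filter]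
    exact ⟨mem_univ _, y', hy', hnz', rfl, hM', hr'⟩)

/-- At a minimal chamber, a direction which does not increase the negative coordinates
cannot decrease only non-coloops of the positive part. -/
lemma no_down (L : Submodule ℝ (ι → ℝ)) (h : Nice L) (M : ℤ)
    (hmax : ∀ y ∈ L, (∀ i, y i ≠ 0) → rk L (pos y) + rk L (neg y) ≤ M)
    (y : ι → ℝ) (hy : y ∈ L) (hnz : ∀ i, y i ≠ 0) (hM : rk L (pos y) + rk L (neg y) = M)
    (hr : rk L (neg y) = finrank ℝ L)
    (hmin : ∀ y' ∈ L, (∀ i, y' i ≠ 0) → rk L (pos y') + rk L (neg y') = M →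
        rk L (neg y') = finrank ℝ L → (pos y).card ≤ (pos y').card)
    (z : ι → ℝ) (hz : z ∈ L) (hzn : ∀ i ∈ neg y, z i ≤ 0)
    (hcol : ∀ i ∈ col L (pos y), 0 ≤ z i) : ∀ i ∈ pos y, 0 ≤ z i := by
  classical
  by_contra hcon
  push Not at hcon
  obtain ⟨e, he, hze, y'', hy'', hnz'', hp'', hn''⟩ := step L h y hy hnz z hz hzn hcon
  have hec : e ∉ col L (pos y) := fun hc => absurd (hcol e hc) (not_le.mpr hze)
  have h1 : rk L ((pos y).erase e) = rk L (pos y) := by
    refine le_antisymm (rk_mono L (erase_subset _ _)) ?_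
    by_contra hlt
    push Not at hlt
    exact hec ((mem_col L _ e).mpr ⟨he, hlt⟩)
  have h2 : rk L (neg y'') = finrank ℝ L := by
    refine le_antisymm (rk_le L _) ?_
    rw [hn'', ← hr]
    exact rk_mono L (subset_insert _ _)
  have h3 := hmin y'' hy'' hnz'' (by rw [h2, hp'', h1, ← hr]; exact hM) h2
  rw [hp'', card_erase_of_mem he] at h3
  have h4 : 0 < (pos y).card := card_pos.mpr ⟨e, he⟩
  omega

/-- Lemma A. -/
theorem lemA (L : Submodule ℝ (ι → ℝ)) (h : Nice L) (M : ℤ)
    (hmax : ∀ y ∈ L, (∀ i, y i ≠ 0) → rk L (pos y) + rk L (neg y) ≤ M)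
    (hat : ∃ y ∈ L, (∀ i, y i ≠ 0) ∧ rk L (pos y) + rk L (neg y) = M)
    (hlt : M < 2 * finrank ℝ L) :
    ∃ y ∈ L, (∀ i, y i ≠ 0) ∧ rk L (pos y) + rk L (neg y) = M ∧ rk L (neg y) = finrank ℝ L ∧
      (finrank ℝ L : ℤ) - rk L (pos y) + 1 ≤ (col L (neg y)).card ∧
      1 ≤ (col L (pos y)).card ∧
      ((col L (pos y)).card = 1 → ∃ g ∈ pos y, ∀ z ∈ Lz L (pos y), z ≠ 0 →
        ∃ x ∈ neg y, z x < 0 ∧ ∃ ζ ∈ L, ζ x ≠ 0 ∧ ζ g ≠ 0 ∧ ∀ i, i ≠ x → i ≠ g → ζ i = 0) := by
  classical
  obtain ⟨y, hy, hnz, hM, hr, hmin⟩ := exists_min L h M hmax hat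
  have hκ : rk L (pos y) < finrank ℝ L := by omega
  have hnz' : ∀ i, (-y) i ≠ 0 := fun i => by simpa using hnz i
  have hM' : rk L (pos (-y)) + rk L (neg (-y)) = M := by
    rw [pos_neg_eq, neg_neg_eq, add_comm]; exact hM
  -- crossing a facet on the negative side
  have cross : ∀ z ∈ Lz L (pos y), z ≠ 0 → ∃ x ∈ col L (neg y), z x < 0 ∧ ∃ u ∈ L,
      (∀ i, u i ≠ 0) ∧ pos u = insert x (pos y) ∧ neg u = (neg y).erase x ∧
      rk L (pos u) = rk L (pos y) + 1 ∧ rk L (neg u) = finrank ℝ L - 1 := by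
    intro z hz hz0
    obtain ⟨x, hx, hzx, y'', hy'', hnz'', hp'', hn''⟩ := star L h M hmax (-y) (L.neg_mem hy) hnz'
      hM' z (by rw [neg_neg_eq]; exact hz) hz0
    rw [pos_neg_eq] at hx hp''
    rw [neg_neg_eq] at hn''
    refine ⟨x, hx, hzx, -y'', L.neg_mem hy'', fun i => by simpa using hnz'' i, ?_, ?_, ?_, ?_⟩
    · rw [pos_neg_eq]; exact hn''
    · rw [neg_neg_eq]; exact hp''
    · rw [pos_neg_eq, hn'']
      have h1 := rk_insert_gt L (pos y) x z hz hzx.ne
      have h2 := rk_insert_le L (pos y) x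
      omega
    · rw [neg_neg_eq, hp'']
      have h1 := ((mem_col L _ x).mp hx).2
      have h2 := rk_insert_le L ((neg y).erase x) x
      rw [insert_erase ((mem_col L _ x).mp hx).1] at h2
      omega
  have hxcol : ∀ x ∈ col L (neg y), ∀ u : ι → ℝ, pos u = insert x (pos y) →
      rk L (pos u) = rk L (pos y) + 1 → x ∈ col L (pos u) := by
    intro x hx u hpu hru
    rw [mem_col, hpu]
    refine ⟨mem_insert_self _ _, ?_⟩
    have hxP : x ∉ pos y := by
      intro hc
      have h1 := (mpos y x).mp hc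
      have h2 := (mneg y x).mp (col_subset L _ hx)
      linarith
    rw [erase_insert hxP]
    rw [hpu] at hru
    omega
  have hcardu : ∀ u ∈ L, (∀ i, u i ≠ 0) → rk L (pos u) = rk L (pos y) + 1 →
      rk L (neg u) = finrank ℝ L - 1 → 2 ≤ (col L (pos u)).card := by
    intro u hu hnzu h1 h2
    have := count L h M hmax u hu hnzu (by rw [h1, h2]; omega) (by omega)
    rw [h2] at this
    omega
  have hxP : ∀ x ∈ neg y, x ∉ pos y := by
    intro x hx hc
    have h1 := (mpos y x).mp hc
    have h2 := (mneg y x).mp hx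
    linarith
  refine ⟨y, hy, hnz, hM, hr, ?_, ?_, ?_⟩
  · have h1 := count L h M hmax (-y) (L.neg_mem hy) hnz' hM' (by rw [neg_neg_eq]; exact hκ)
    rw [neg_neg_eq, pos_neg_eq] at h1
    exact h1
  · -- at least one coloop
    have hpos : 0 < finrank ℝ (Lz L (pos y)) := by
      simp only [rk] at hκ; omega
    have hn := Module.finrank_pos_iff.mp hpos
    obtain ⟨z, hz⟩ := exists_ne (0 : Lz L (pos y))
    obtain ⟨x, hx, hzx, u, hu, hnzu, hpu, hnu, hru, hru'⟩ := cross z z.2
      (fun h0 => hz (Subtype.ext h0))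
    have h2 := hcardu u hu hnzu hru hru'
    have h3 := hxcol x hx u hpu hru
    have h4 := card_le_card (col_erase L (pos u) x h3)
    rw [card_erase_of_mem h3, hpu, erase_insert (hxP x (col_subset L _ hx)), ← hpu] at h4
    omega
  · intro hone
    obtain ⟨g, hg⟩ := card_eq_one.mp hone
    have hgc : g ∈ col L (pos y) := by rw [hg]; exact mem_singleton_self g
    have hgP : g ∈ pos y := col_subset L _ hgc
    refine ⟨g, hgP, ?_⟩
    intro z hz hz0
    obtain ⟨x, hx, hzx, u, hu, hnzu, hpu, hnu, hru, hru'⟩ := cross z hz hz0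
    have hxN : x ∈ neg y := col_subset L _ hx
    refine ⟨x, hxN, hzx, ?_⟩
    have hxc := hxcol x hx u hpu hru
    have hgx : g ≠ x := by
      rintro rfl
      exact hxP g hxN hgP
    -- the coloops of `P + x`
    have hcolu : ∀ e ∈ col L (pos u), e = x ∨ e = g := by
      intro e he
      by_cases hex : e = x
      · exact Or.inl hex
      · right
        have h4 := col_erase L (pos u) x hxc (mem_erase.mpr ⟨hex, he⟩)
        rw [hpu, erase_insert (hxP x hxN), hg, mem_singleton] at h4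
        exact h4
    -- the circuit direction
    have hker : 0 < finrank ℝ (Lz L (neg u)) := by
      simp only [rk] at hru'; omega
    have hn := Module.finrank_pos_iff.mp hker
    obtain ⟨ζ₀, hζ₀⟩ := exists_ne (0 : Lz L (neg u))
    have hζ₀' : (ζ₀ : ι → ℝ) ≠ 0 := fun h0 => hζ₀ (Subtype.ext h0)
    have hfull : ∀ v ∈ Lz L (neg y), v = 0 := by
      intro v hv
      have h5 : finrank ℝ (Lz L (neg y)) = 0 := by
        simp only [rk] at hr; omega
      have h6 := Submodule.finrank_eq_zero.mp h5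
      rw [h6] at hv
      exact (Submodule.mem_bot ℝ).mp hv
    have hnx : ∀ v ∈ Lz L (neg u), v ≠ 0 → v x ≠ 0 := by
      intro v hv hv0 hvx
      apply hv0
      apply hfull v
      refine ⟨hv.1, ?_⟩
      intro i hi
      by_cases hix : i = x
      · rw [hix]; exact hvx
      · exact hv.2 i (by rw [hnu]; exact mem_erase.mpr ⟨hix, hi⟩)
    obtain ⟨ζ, hζ, hζx⟩ : ∃ ζ ∈ Lz L (neg u), 0 < ζ x := by
      rcases lt_or_gt_of_ne (hnx ζ₀ ζ₀.2 hζ₀') with h5 | h5
      · refine ⟨-ζ₀, (Lz L (neg u)).neg_mem ζ₀.2, ?_⟩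
        simp only [Pi.neg_apply]
        linarith
      · exact ⟨ζ₀, ζ₀.2, h5⟩
    have hζ0 : ζ ≠ 0 := by
      rintro rfl
      simp at hζx
    have hMu : rk L (pos u) + rk L (neg u) = M := by rw [hru, hru']; omega
    obtain ⟨e, he, hζe, y', hy', hnz'', hp', hn'⟩ := star L h M hmax u hu hnzu hMu ζ hζ hζ0
    have heg : e = g := by
      rcases hcolu e he with h5 | h5
      · rw [h5] at hζe; linarith
      · exact h5
    rw [heg] at he hζe hp' hn'
    refine ⟨ζ, hζ.1, hζx.ne', hζe.ne, ?_⟩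
    have hζQ : ∀ i ∈ neg y, i ≠ x → ζ i = 0 := by
      intro i hi hix
      exact hζ.2 i (by rw [hnu]; exact mem_erase.mpr ⟨hix, hi⟩)
    -- first claim
    have c1 := no_down L h M hmax y hy hnz hM hr hmin (-ζ) (L.neg_mem hζ.1)
      (by
        intro i hi
        by_cases hix : i = x
        · rw [hix]; simp only [Pi.neg_apply]; linarith
        · simp only [Pi.neg_apply]; rw [hζQ i hi hix]; simp)
      (by
        intro i hi
        rw [hg, mem_singleton] at hi
        rw [hi]; simp only [Pi.neg_apply]; linarith)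
    -- second claim
    have hr' : rk L (neg y') = finrank ℝ L := by
      refine le_antisymm (rk_le L _) ?_
      rw [hn']
      have h5 := rk_insert_gt L (neg u) g ζ hζ hζe.ne
      omega
    have hr'' : rk L (pos y') = rk L (pos y) := by
      rw [hp']
      have h1 := ((mem_col L _ g).mp he).2
      have h2 := rk_insert_le L ((pos u).erase g) g
      rw [insert_erase ((mem_col L _ g).mp he).1] at h2
      omega
    have hcard' : (pos y').card = (pos y).card := by
      rw [hp', card_erase_of_mem (col_subset L _ he), hpu, card_insert_of_notMem (hxP x hxN)]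
      omega
    have c2 := no_down L h M hmax y' hy' hnz'' (by rw [hr', hr'', ← hr]; exact hM) hr'
      (by
        intro v hv hnzv hMv hrv
        rw [hcard']
        exact hmin v hv hnzv hMv hrv)
      ζ hζ.1
      (by
        intro i hi
        rw [hn', mem_insert] at hi
        rcases hi with rfl | hi
        · exact hζe.le
        · rw [hζ.2 i hi])
      (by
        intro i hi
        rw [hp'] at hi
        have h5 := col_of_erase L (pos u) g he hi
        rw [mem_erase] at h5
        rcases hcolu i h5.2 with h6 | h6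
        · rw [h6]; exact hζx.le
        · exact absurd h6 h5.1)
    intro i hix hig
    rcases lt_or_gt_of_ne (hnz i) with h5 | h5
    · exact hζQ i ((mneg y i).mpr h5) hix
    · have hiP := (mpos y i).mpr h5
      have h6 := c1 i hiP
      have h7 := c2 i (by
        rw [hp', hpu]
        exact mem_erase.mpr ⟨hig, mem_insert_of_mem hiP⟩)
      simp only [Pi.neg_apply] at h6
      linarith

end Pool.Agent.Y584.DV.LemA
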