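import Mathlib
import Pool.Agent.Helper894.Div.Main
import Pool.Agent.Y584.DV.LemA

set_option autoImplicit false

/-! The counting in the nice case. -/

namespace Pool.Agent.Y584.DV.Nice

open Finset Module Pool.Agent.Helper894.Div.Core Pool.Agent.Helper894.Div.KL
  Pool.Agent.Helper894.Div.Main Pool.Agent.Y584.DV.LemA

variable {ι : Type*} [Fintype ι] [DecidableEq ι]

/-- No nonzero vector of `L` has support of size at most two. -/
def Dist2 (L : Submodule ℝ (ι → ℝ)) : Prop :=
  ∀ z ∈ L, ∀ a b : ι, (∀ i, i ≠ a → i ≠ b → z i = 0) → z = 0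

/-- Some bookkeeping on a chamber. -/
lemma book (L : Submodule ℝ (ι → ℝ)) (y : ι → ℝ) (hnz : ∀ i, y i ≠ 0) :
    (pos y \ col L (pos y)).card + (col L (pos y)).card = (pos y).card ∧
    (neg y \ col L (neg y)).card + (col L (neg y)).card = (neg y).card ∧
    (pos y).card + (neg y).card = Fintype.card ι ∧
    rk L (pos y \ col L (pos y)) ≤ rk L (pos y) - (col L (pos y)).card ∧
    rk L (neg y \ col L (neg y)) ≤ rk L (neg y) - (col L (neg y)).card ∧
    ((pos y \ col L (pos y)) ∪ (neg y \ col L (neg y))).card =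
      (pos y \ col L (pos y)).card + (neg y \ col L (neg y)).card ∧
    rk L ((pos y \ col L (pos y)) ∪ (neg y \ col L (neg y))) ≤
      rk L (pos y \ col L (pos y)) + rk L (neg y \ col L (neg y)) := by
  have hdis : Disjoint (pos y \ col L (pos y)) (neg y \ col L (neg y)) := by
    rw [disjoint_left]
    intro i hi hj
    have h1 := (mpos y i).mp (Finset.mem_sdiff.mp hi).1
    have h2 := (mneg y i).mp (Finset.mem_sdiff.mp hj).1
    linarith
  refine ⟨card_sdiff_add_card_eq_card (col_subset L _),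
    card_sdiff_add_card_eq_card (col_subset L _), card_pos_neg y hnz,
    rk_sdiff_col L (pos y) (col L (pos y)) (Subset.refl _),
    rk_sdiff_col L (neg y) (col L (neg y)) (Subset.refl _),
    card_union_of_disjoint hdis, ?_⟩
  have hsub := rk_sub L (pos y \ col L (pos y)) (neg y \ col L (neg y))
  have hnn := rk_nonneg L ((pos y \ col L (pos y)) ∩ (neg y \ col L (neg y)))
  linarith

theorem nice_case (L : Submodule ℝ (ι → ℝ)) (h : Nice L) (hD : Dist2 L) (k : ℕ) (hk : 3 ≤ k)
    (hyp : HypA L k) (hn : 2 * k + 4 ≤ Fintype.card ι)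
    (hc : Fintype.card ι + 2 * k ≤ 2 * finrank ℝ L + 6)
    (hex : 4 ≤ k ∨ 2 * k ≤ finrank ℝ L) :
    ∃ y ∈ L, (∀ i, y i ≠ 0) ∧ (finrank ℝ L : ℤ) + k + 1 ≤ rk L (pos y) + rk L (neg y) := by
  classical
  by_contra hcon
  push Not at hcon
  obtain ⟨y₀, hy₀, hnz₀, hmax⟩ := exists_max L h
  have hM := hcon y₀ hy₀ hnz₀
  obtain ⟨y, hy, hnz, hyM, hr, hB, hA, hA1⟩ := lemA L h _ hmax ⟨y₀, hy₀, hnz₀, rfl⟩ (by omega)
  have hκ : rk L (pos y) < finrank ℝ L := by omega
  -- two coloops
  have hA2 : (col L (pos y)).card ≠ 1 := by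
    intro h1
    obtain ⟨g, hg, hg2⟩ := hA1 h1
    have hpos : 0 < finrank ℝ (Lz L (pos y)) := by
      simp only [rk] at hκ; omega
    have hn := Module.finrank_pos_iff.mp hpos
    obtain ⟨z, hz⟩ := exists_ne (0 : Lz L (pos y))
    obtain ⟨x, hx, hzx, ζ, hζ, hζx, hζg, hζ0⟩ := hg2 z z.2 (fun h0 => hz (Subtype.ext h0))
    have h5 := hD ζ hζ x g hζ0
    rw [h5] at hζx
    exact hζx rfl
  obtain ⟨b1, b2, b3, b4, b5, b6, b7⟩ := book L y hnz
  have e3 := exc_large L k hyp (by omega)
    ((pos y \ col L (pos y)) ∪ (neg y \ col L (neg y)))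
  have e1 := exc_large L k hyp (by omega) (pos y \ col L (pos y))
  have e2 := exc_large L k hyp (by omega) (neg y \ col L (neg y))
  have r1 := rk_le_card L (pos y)
  omega

end Pool.Agent.Y584.DV.Nice
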