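import Mathlib
import Pool.Agent.Y584.DV.Nice

set_option autoImplicit false

/-! Merging one pair of positively proportional coordinates. -/

namespace Pool.Agent.Y584.DV.Merge

open Finset Module Pool.Agent.Helper894.Div.Core Pool.Agent.Helper894.Div.KL
  Pool.Agent.Helper894.Div.Main Pool.Agent.Y584.DV.LemA Pool.Agent.Y584.DV.Nice

/-- A set of rank at most one on the positive side of a chamber has at most one element. -/
lemma rank_one {ι : Type*} [Fintype ι] [DecidableEq ι] (L : Submodule ℝ (ι → ℝ)) (h : Nice L)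
    (y : ι → ℝ) (hy : y ∈ L) (A : Finset ι)
    (hA : A ⊆ pos y) (hr : rk L A ≤ 1) : A.card ≤ 1 := by
  classical
  rw [card_le_one]
  intro e he f hf
  by_contra hef
  have hye := (mpos y e).mp (hA he)
  have hyf := (mpos y f).mp (hA hf)
  obtain ⟨v, hv, hvne⟩ := h.dist e f hef (y f / y e) (div_pos hyf hye)
  -- the vector `u` vanishes at `e` and not at `f`
  have hu : v - (v e / y e) • y ∈ Lz L {e} := by
    refine ⟨L.sub_mem hv (L.smul_mem _ hy), ?_⟩
    intro i hi
    rw [mem_singleton] at hi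
    rw [hi]
    simp only [Pi.sub_apply, Pi.smul_apply, smul_eq_mul]
    rw [div_mul_cancel₀ _ hye.ne', sub_self]
  have huf : (v - (v e / y e) • y) f ≠ 0 := by
    intro h0
    apply hvne
    simp only [Pi.sub_apply, Pi.smul_apply, smul_eq_mul] at h0
    field_simp at h0 ⊢
    linarith
  have h1 := rk_insert_gt L {e} f _ hu huf
  have h2 := rk_insert_gt L ∅ e y (by rw [Lz_empty]; exact hy) hye.ne'
  rw [rk_empty] at h2
  have e1 : insert e (∅ : Finset ι) = {e} := by ext z; simp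
  rw [e1] at h2
  have h3 : rk L (insert f {e}) ≤ rk L A := by
    apply rk_mono
    intro i hi
    rw [mem_insert, mem_singleton] at hi
    rcases hi with rfl | rfl
    · exact hf
    · exact he
  omega

section
variable {ι : Type} [Fintype ι] [DecidableEq ι]

/-- Extension of a vector by a multiple of a coordinate. -/
noncomputable def ext (a a' : ι) (haa : a ≠ a') (c : ℝ) : ({i : ι // i ≠ a'} → ℝ) →ₗ[ℝ] (ι → ℝ) where
  toFun u i := if h : i = a' then c * u ⟨a, haa⟩ else u ⟨i, h⟩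
  map_add' := by
    intro u v
    funext i
    simp only [Pi.add_apply]
    split_ifs
    · ring
    · rfl
  map_smul' := by
    intro t u
    funext i
    simp only [Pi.smul_apply, smul_eq_mul, RingHom.id_apply]
    split_ifs
    · ring
    · rfl

lemma ext_ne (a a' : ι) (haa : a ≠ a') (c : ℝ) (u : {i : ι // i ≠ a'} → ℝ) (i : ι) (h : i ≠ a') :
    ext a a' haa c u i = u ⟨i, h⟩ := by
  simp [ext, h]

lemma ext_eq (a a' : ι) (haa : a ≠ a') (c : ℝ) (u : {i : ι // i ≠ a'} → ℝ) :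
    ext a a' haa c u a' = c * u ⟨a, haa⟩ := by
  simp [ext]

lemma ext_inj (a a' : ι) (haa : a ≠ a') (c : ℝ) : Function.Injective (ext a a' haa c) := by
  intro u v huv
  funext i
  have := congrFun huv i.1
  rwa [ext_ne a a' haa c u i.1 i.2, ext_ne a a' haa c v i.1 i.2] at this

/-- The merged space. -/
noncomputable def mg (L : Submodule ℝ (ι → ℝ)) (a a' : ι) (haa : a ≠ a') (c : ℝ) :
    Submodule ℝ ({i : ι // i ≠ a'} → ℝ) := L.comap (ext a a' haa c)

lemma mem_mg (L : Submodule ℝ (ι → ℝ)) (a a' : ι) (haa : a ≠ a') (c : ℝ)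
    (u : {i : ι // i ≠ a'} → ℝ) : u ∈ mg L a a' haa c ↔ ext a a' haa c u ∈ L := Iff.rfl

lemma res_mem (L : Submodule ℝ (ι → ℝ)) (a a' : ι) (haa : a ≠ a') (c : ℝ)
    (hpar : ∀ y ∈ L, y a' = c * y a) (y : ι → ℝ) (hy : y ∈ L) :
    ext a a' haa c (fun i => y i.1) = y := by
  funext i
  by_cases h : i = a'
  · rw [h, ext_eq]
    exact (hpar y hy).symm
  · rw [ext_ne a a' haa c _ i h]

/-- The set in `ι`. -/
noncomputable def up (a' : ι) (A : Finset {i : ι // i ≠ a'}) : Finset ι :=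
  A.map (Function.Embedding.subtype _)

lemma mem_up (a' : ι) (A : Finset {i : ι // i ≠ a'}) (i : ι) :
    i ∈ up a' A ↔ ∃ h : i ≠ a', (⟨i, h⟩ : {i : ι // i ≠ a'}) ∈ A := by
  simp [up]

lemma card_up (a' : ι) (A : Finset {i : ι // i ≠ a'}) : (up a' A).card = A.card := card_map _

lemma Lz_up (L : Submodule ℝ (ι → ℝ)) (a a' : ι) (haa : a ≠ a') (c : ℝ)
    (hpar : ∀ y ∈ L, y a' = c * y a) (A : Finset {i : ι // i ≠ a'}) :
    (Lz (mg L a a' haa c) A).map (ext a a' haa c) = Lz L (up a' A) := by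
  ext y
  rw [Submodule.mem_map]
  constructor
  · rintro ⟨u, ⟨hu, hu2⟩, rfl⟩
    refine ⟨hu, ?_⟩
    intro i hi
    obtain ⟨h, hi⟩ := (mem_up a' A i).mp hi
    rw [ext_ne a a' haa c u i h]
    exact hu2 _ hi
  · rintro ⟨hy, hy2⟩
    have e := res_mem L a a' haa c hpar y hy
    refine ⟨fun i => y i.1, ⟨?_, ?_⟩, e⟩
    · rw [mem_mg, e]; exact hy
    · intro i hi
      exact hy2 i.1 ((mem_up a' A i.1).mpr ⟨i.2, hi⟩)

lemma finrank_Lz_up (L : Submodule ℝ (ι → ℝ)) (a a' : ι) (haa : a ≠ a') (c : ℝ)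
    (hpar : ∀ y ∈ L, y a' = c * y a) (A : Finset {i : ι // i ≠ a'}) :
    finrank ℝ (Lz (mg L a a' haa c) A) = finrank ℝ (Lz L (up a' A)) := by
  rw [← Lz_up L a a' haa c hpar A]
  exact (Submodule.equivMapOfInjective (ext a a' haa c) (ext_inj a a' haa c) _).finrank_eq

lemma finrank_mg (L : Submodule ℝ (ι → ℝ)) (a a' : ι) (haa : a ≠ a') (c : ℝ)
    (hpar : ∀ y ∈ L, y a' = c * y a) : finrank ℝ (mg L a a' haa c) = finrank ℝ L := by
  have h := finrank_Lz_up L a a' haa c hpar ∅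
  have e : up a' (∅ : Finset {i : ι // i ≠ a'}) = ∅ := by simp [up]
  rw [e, Lz_empty, Lz_empty] at h
  exact h

lemma rk_up (L : Submodule ℝ (ι → ℝ)) (a a' : ι) (haa : a ≠ a') (c : ℝ)
    (hpar : ∀ y ∈ L, y a' = c * y a) (A : Finset {i : ι // i ≠ a'}) :
    rk (mg L a a' haa c) A = rk L (up a' A) := by
  simp only [rk]
  rw [finrank_mg L a a' haa c hpar, finrank_Lz_up L a a' haa c hpar A]

/-- Ranks of the two sides of a chamber. -/
lemma rk_chamber (L : Submodule ℝ (ι → ℝ)) (a a' : ι) (haa : a ≠ a') (c : ℝ) (hc : 0 < c)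
    (hpar : ∀ y ∈ L, y a' = c * y a) (u : {i : ι // i ≠ a'} → ℝ) :
    rk (mg L a a' haa c) (pos u) ≤ rk L (pos (ext a a' haa c u)) ∧
    rk (mg L a a' haa c) (neg u) ≤ rk L (neg (ext a a' haa c u)) := by
  constructor
  · rw [rk_up L a a' haa c hpar]
    apply rk_mono
    intro i hi
    obtain ⟨h, hi⟩ := (mem_up a' _ i).mp hi
    rw [mpos, ext_ne a a' haa c u i h]
    exact (mpos u _).mp hi
  · rw [rk_up L a a' haa c hpar]
    apply rk_mono
    intro i hi
    obtain ⟨h, hi⟩ := (mem_up a' _ i).mp hi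
    rw [mneg, ext_ne a a' haa c u i h]
    exact (mneg u _).mp hi

lemma nice_mg (L : Submodule ℝ (ι → ℝ)) (a a' : ι) (haa : a ≠ a') (c : ℝ) (hc : 0 < c)
    (hpar : ∀ y ∈ L, y a' = c * y a)
    (hwt : ∃ w : ι → ℝ, (∀ i, 0 < w i) ∧ ∀ y ∈ L, ∑ i, w i * y i = 0)
    (hnl : ∀ i, ∃ y ∈ L, y i ≠ 0)
    (hdist : ∀ i j, i ≠ j → i ≠ a' → j ≠ a' → ∀ c : ℝ, 0 < c → ∃ y ∈ L, y j ≠ c * y i) :
    Nice (mg L a a' haa c) := by
  classical
  refine ⟨?_, ?_, ?_⟩
  · obtain ⟨w, hw, hwL⟩ := hwt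
    refine ⟨fun i => w i.1 + if i.1 = a then c * w a' else 0, ?_, ?_⟩
    · intro i
      have h1 := hw i.1
      have h2 := hw a'
      dsimp only
      split_ifs
      · positivity
      · linarith
    · intro u hu
      have h1 := hwL _ hu
      rw [← Finset.add_sum_erase univ _ (mem_univ a'), ext_eq] at h1
      have h2 : ∑ i ∈ univ.erase a', w i * ext a a' haa c u i =
          ∑ i : {i : ι // i ≠ a'}, w i.1 * u i := by
        rw [Finset.sum_subtype (univ.erase a') (p := fun i => i ≠ a') (by intro x; simp)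
          (fun i => w i * ext a a' haa c u i)]
        apply Finset.sum_congr rfl
        intro i _
        rw [ext_ne a a' haa c u i.1 i.2]
      rw [h2] at h1
      have h3 : ∑ i : {i : ι // i ≠ a'}, (w i.1 + if i.1 = a then c * w a' else 0) * u i =
          ∑ i : {i : ι // i ≠ a'}, w i.1 * u i +
          ∑ i : {i : ι // i ≠ a'}, (if i.1 = a then c * w a' else 0) * u i := by
        rw [← Finset.sum_add_distrib]
        apply Finset.sum_congr rfl
        intro i _
        ring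
      have h4 : ∑ i : {i : ι // i ≠ a'}, (if i.1 = a then c * w a' else 0) * u i =
          c * w a' * u ⟨a, haa⟩ := by
        rw [Finset.sum_eq_single (⟨a, haa⟩ : {i : ι // i ≠ a'})]
        · simp
        · intro b _ hb
          have : b.1 ≠ a := fun h => hb (Subtype.ext h)
          simp [this]
        · intro h; exact absurd (mem_univ _) h
      rw [h3, h4]
      linarith
  · intro i
    obtain ⟨y, hy, hyi⟩ := hnl i.1
    have e := res_mem L a a' haa c hpar y hy
    exact ⟨fun i => y i.1, by rw [mem_mg, e]; exact hy, hyi⟩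
  · intro i j hij t ht
    obtain ⟨y, hy, hyi⟩ := hdist i.1 j.1 (fun h => hij (Subtype.ext h)) i.2 j.2 t ht
    have e := res_mem L a a' haa c hpar y hy
    exact ⟨fun i => y i.1, by rw [mem_mg, e]; exact hy, hyi⟩

/-- The remaining case for `k = 3`: twelve elements, rank six, one positively parallel pair. -/
theorem merged_case (L : Submodule ℝ (ι → ℝ)) (hD : Dist2 L)
    (hwt : ∃ w : ι → ℝ, (∀ i, 0 < w i) ∧ ∀ y ∈ L, ∑ i, w i * y i = 0)
    (hnl : ∀ i, ∃ y ∈ L, y i ≠ 0) (hyp : HypA L 3) (hN : Fintype.card ι = 12)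
    (hl : finrank ℝ L = 6) (a a' : ι) (haa : a ≠ a') (c : ℝ) (hc : 0 < c)
    (hpar : ∀ y ∈ L, y a' = c * y a)
    (hdist : ∀ i j, i ≠ j → i ≠ a' → j ≠ a' → ∀ c : ℝ, 0 < c → ∃ y ∈ L, y j ≠ c * y i) :
    ∃ y ∈ L, (∀ i, y i ≠ 0) ∧ (finrank ℝ L : ℤ) + 3 + 1 ≤ rk L (pos y) + rk L (neg y) := by
  classical
  set L' := mg L a a' haa c with hL'
  have h : Nice L' := nice_mg L a a' haa c hc hpar hwt hnl hdist
  have hl' : finrank ℝ L' = 6 := by rw [hL', finrank_mg L a a' haa c hpar, hl]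
  by_contra hcon
  push Not at hcon
  obtain ⟨y₀, hy₀, hnz₀, hmax⟩ := exists_max L' h
  have hM : rk L' (pos y₀) + rk L' (neg y₀) < 10 := by
    have h1 := hcon (ext a a' haa c y₀) hy₀ (by
      intro i
      by_cases hi : i = a'
      · rw [hi, ext_eq]
        exact mul_ne_zero hc.ne' (hnz₀ _)
      · rw [ext_ne a a' haa c y₀ i hi]
        exact hnz₀ _)
    have h2 := rk_chamber L a a' haa c hc hpar y₀
    rw [hl] at h1
    rw [← hL'] at h2
    omega
  obtain ⟨y, hy, hnz, hyM, hr, hB, hA, hA1⟩ := lemA L' h _ hmax ⟨y₀, hy₀, hnz₀, rfl⟩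
    (by rw [hl']; omega)
  rw [hl'] at hr hB
  obtain ⟨b1, b2, b3, b4, b5, b6, b7⟩ := book L' y hnz
  have hN' : Fintype.card {i : ι // i ≠ a'} = 11 := by
    rw [Fintype.card_subtype_compl, hN, Fintype.card_subtype_eq]
  have e3 := exc_large L 3 hyp (by omega)
    (up a' ((pos y \ col L' (pos y)) ∪ (neg y \ col L' (neg y))))
  rw [card_up, ← rk_up L a a' haa c hpar, ← hL', hl, hN] at e3
  have r1 := rk_le_card L' (pos y)
  -- the rank of the positive part is three
  have hκ3 : rk L' (pos y) = 3 := by omega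
  have hκ : rk L' (pos y) < finrank ℝ L' := by omega
  -- it has exactly one coloop
  have hone : (col L' (pos y)).card = 1 := by
    by_contra hne
    have h2 : (col L' (pos y)).card = 2 := by omega
    have h3 : rk L' (pos y \ col L' (pos y)) ≤ 1 := by omega
    have h4 := rank_one L' h y hy _ sdiff_subset h3
    have h5 : (pos y).card = 3 := by omega
    have h6 : (pos y \ col L' (pos y)).card = 1 := by omega
    obtain ⟨e, he⟩ := card_eq_one.mp h6
    have he' : e ∈ pos y \ col L' (pos y) := by rw [he]; exact mem_singleton_self e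
    rw [Finset.mem_sdiff] at he'
    apply he'.2
    rw [mem_col]
    refine ⟨he'.1, ?_⟩
    have h7 := rk_le_card L' ((pos y).erase e)
    rw [card_erase_of_mem he'.1, h5] at h7
    push_cast at h7
    omega
  obtain ⟨g, hg, hg2⟩ := hA1 hone
  have hpos : 0 < finrank ℝ (Lz L' (pos y)) := by
    simp only [rk] at hκ; omega
  have hn := Module.finrank_pos_iff.mp hpos
  obtain ⟨z, hz⟩ := exists_ne (0 : Lz L' (pos y))
  have hz' : (z : {i : ι // i ≠ a'} → ℝ) ≠ 0 := fun h0 => hz (Subtype.ext h0)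
  obtain ⟨x₁, hx₁, hzx₁, ζ₁, hζ₁, hζ₁x, hζ₁g, hζ₁0⟩ := hg2 z z.2 hz'
  obtain ⟨x₂, hx₂, hzx₂, ζ₂, hζ₂, hζ₂x, hζ₂g, hζ₂0⟩ := hg2 (-z) ((Lz L' (pos y)).neg_mem z.2)
    (by simpa using hz')
  have hx12 : x₁ ≠ x₂ := by
    rintro rfl
    simp only [Pi.neg_apply] at hzx₂
    linarith
  have hgx : ∀ x ∈ neg y, x ≠ g := by
    rintro x hx rfl
    have h1 := (mpos y x).mp hg
    have h2 := (mneg y x).mp hx
    linarith
  -- a vector of `L'` supported on two elements different from `a` is zero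
  have key : ∀ ζ ∈ L', ∀ p q : {i : ι // i ≠ a'}, p.1 ≠ a → q.1 ≠ a →
      (∀ i, i ≠ p → i ≠ q → ζ i = 0) → ζ = 0 := by
    intro ζ hζ p q hp hq h0
    have h1 := hD (ext a a' haa c ζ) hζ p.1 q.1 (by
      intro i hip hiq
      by_cases hi : i = a'
      · rw [hi, ext_eq, h0 ⟨a, haa⟩ (fun h => hp (congrArg Subtype.val h).symm)
          (fun h => hq (congrArg Subtype.val h).symm), mul_zero]
      · rw [ext_ne a a' haa c ζ i hi]
        exact h0 _ (fun h => hip (congrArg Subtype.val h)) (fun h => hiq (congrArg Subtype.val h)))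
    apply ext_inj a a' haa c
    rw [h1, map_zero]
  by_cases hga : g.1 = a
  · have hxa : ∀ x ∈ neg y, x.1 ≠ a := by
      intro x hx hxa
      exact hgx x hx (Subtype.ext (hxa.trans hga.symm))
    have h1 := key (ζ₁ - (ζ₁ g / ζ₂ g) • ζ₂) (L'.sub_mem hζ₁ (L'.smul_mem _ hζ₂)) x₁ x₂
      (hxa x₁ hx₁) (hxa x₂ hx₂) (by
        intro i hi1 hi2
        simp only [Pi.sub_apply, Pi.smul_apply, smul_eq_mul]
        by_cases hig : i = g
        · rw [hig, div_mul_cancel₀ _ hζ₂g, sub_self]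
        · rw [hζ₁0 i hi1 hig, hζ₂0 i hi2 hig, mul_zero, sub_zero])
    have h2 := congrFun h1 x₁
    simp only [Pi.sub_apply, Pi.smul_apply, smul_eq_mul, Pi.zero_apply] at h2
    rw [hζ₂0 x₁ hx12 (hgx x₁ hx₁), mul_zero, sub_zero] at h2
    exact hζ₁x h2
  · by_cases hxa : x₁.1 = a
    · have hxa2 : x₂.1 ≠ a := fun h => hx12 (Subtype.ext (hxa.trans h.symm))
      have h1 := key ζ₂ hζ₂ x₂ g hxa2 hga hζ₂0
      rw [h1] at hζ₂x
      exact hζ₂x rfl
    · have h1 := key ζ₁ hζ₁ x₁ g hxa hga hζ₁0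
      rw [h1] at hζ₁x
      exact hζ₁x rfl

end

end Pool.Agent.Y584.DV.Merge
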