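import Mathlib
import Pool.Agent.Helper894.Div.Main
import Pool.Agent.Y584.DV.Merge

set_option autoImplicit false

/-! The recursion. -/

namespace Pool.Agent.Y584.DV.Rec

open Finset Module Pool.Agent.Helper894.Div.Core Pool.Agent.Helper894.Div.KL
  Pool.Agent.Helper894.Div.Main Pool.Agent.Helper894.Div.Dep
  Pool.Agent.Y584.DV.LemA Pool.Agent.Y584.DV.Nice Pool.Agent.Y584.DV.Merge

variable {E : Type} [NormedAddCommGroup E] [NormedSpace ℝ E] [DecidableEq E]

lemma dist2 (S : Finset E) : Dist2 (dep S) := by
  classical
  intro z hz a b h0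
  obtain ⟨h1, h2⟩ := (mem_dep S z).mp hz
  by_cases hab : a = b
  · subst hab
    have h3 : ∑ i, z i = z a := by
      rw [Finset.sum_eq_single a]
      · intro i _ hi
        exact h0 i hi hi
      · intro h; exact absurd (mem_univ _) h
    rw [h3] at h1
    funext i
    by_cases hi : i = a
    · rw [hi, h1]; rfl
    · rw [h0 i hi hi]; rfl
  · have h3 : ∑ i, z i = z a + z b := by
      rw [← Finset.sum_pair hab]
      symm
      apply Finset.sum_subset (subset_univ _)
      intro i _ hi
      rw [mem_insert, mem_singleton] at hi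
      push Not at hi
      exact h0 i hi.1 hi.2
    have h4 : ∑ i, z i • (i : E) = z a • (a : E) + z b • (b : E) := by
      rw [← Finset.sum_pair (f := fun i : S => z i • (i : E)) hab]
      symm
      apply Finset.sum_subset (subset_univ _)
      intro i _ hi
      rw [mem_insert, mem_singleton] at hi
      push Not at hi
      rw [h0 i hi.1 hi.2, zero_smul]
    rw [h3] at h1
    rw [h4] at h2
    have h5 : z b = - z a := by linarith
    rw [h5, neg_smul, ← sub_eq_add_neg, ← smul_sub] at h2
    have h6 : z a = 0 := by
      rcases smul_eq_zero.mp h2 with h | h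
      · exact h
      · exact absurd (Subtype.ext (sub_eq_zero.mp h)) hab
    funext i
    by_cases hi : i = a
    · rw [hi, h6]; rfl
    · by_cases hi' : i = b
      · rw [hi', h5, h6]; simp
      · rw [h0 i hi hi']; rfl

lemma Lz1 (S : Finset E) (x : S) : finrank ℝ (dep S) ≤ finrank ℝ (Lz (dep S) {x}) + 1 := by
  classical
  have := rk_insert_le (dep S) ∅ x
  have e1 : (insert x ∅ : Finset S) = {x} := by ext z; simp
  rw [rk_empty, e1] at this
  simp only [rk] at this
  omega

/-- Removing a coordinate that vanishes identically. -/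
lemma rem_loop (S : Finset E) (i : S) (hi : ∀ y ∈ dep S, y i = 0) :
    finrank ℝ (dep S) ≤ finrank ℝ (dep (S \ pts S {i})) ∧ (S \ pts S {i}).card + 1 = S.card := by
  classical
  have h1 : dep S ≤ Lz (dep S) {i} := by
    intro y hy
    refine ⟨hy, ?_⟩
    intro j hj
    rw [mem_singleton] at hj
    rw [hj]; exact hi y hy
  have h2 := Submodule.finrank_mono h1
  have h3 := finrank_sub S {i}
  have h4 := card_sdiff_pts S {i}
  rw [card_singleton] at h4
  exact ⟨by omega, h4⟩

/-- Removing two proportional coordinates. -/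
lemma rem_pair (S : Finset E) (i j : S) (hij : i ≠ j) (c : ℝ) (hpar : ∀ y ∈ dep S, y j = c * y i) :
    finrank ℝ (dep S) ≤ finrank ℝ (dep (S \ pts S {i, j})) + 1 ∧
      (S \ pts S {i, j}).card + 2 = S.card := by
  classical
  have h1 : Lz (dep S) {i} ≤ Lz (dep S) {i, j} := by
    intro y hy
    refine ⟨hy.1, ?_⟩
    intro x hx
    have hyi : y i = 0 := hy.2 i (mem_singleton_self _)
    rw [mem_insert, mem_singleton] at hx
    rcases hx with rfl | rfl
    · exact hyi
    · rw [hpar y hy.1, hyi, mul_zero]
  have h2 := Submodule.finrank_mono h1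
  have h3 := finrank_sub S {i, j}
  have h5 := Lz1 S i
  have h4 := card_sdiff_pts S {i, j}
  rw [card_pair hij] at h4
  exact ⟨by omega, h4⟩

/-- The dimension of the affine dependencies drops by at most one when one point is removed. -/
lemma rem_one (S : Finset E) (i : S) :
    finrank ℝ (dep S) ≤ finrank ℝ (dep (S \ pts S {i})) + 1 ∧
      (S \ pts S {i}).card + 1 = S.card := by
  classical
  have h1 := Lz1 S i
  have h2 := finrank_sub S {i}
  have h4 := card_sdiff_pts S {i}
  rw [card_singleton] at h4
  exact ⟨by omega, h4⟩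

/-- A set with `2k+2+m` points satisfying the flat condition has at most `k+m` independent
dependencies. -/
lemma dep_le (k : ℕ) : ∀ m : ℕ, ∀ S : Finset E, HypG k S → S.card = 2 * k + 2 + m →
    finrank ℝ (dep S) ≤ k + m := by
  intro m
  induction m with
  | zero =>
    intro S hS hc
    exact hS S (Subset.refl _) (by omega)
  | succ m ih =>
    intro S hS hc
    obtain ⟨x, hx⟩ : S.Nonempty := card_pos.mp (by omega)
    obtain ⟨h1, h2⟩ := rem_one S ⟨x, hx⟩
    have h3 := ih (S \ pts S {⟨x, hx⟩}) (hS.mono sdiff_subset) (by omega)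
    omega

variable [FiniteDimensional ℝ E]

theorem rec4 (k : ℕ) (hk : 4 ≤ k) : ∀ n : ℕ, ∀ S : Finset E, S.card = n → HypG k S →
    2 * k + 2 ≤ S.card → S.card + 2 * k ≤ 2 * finrank ℝ (dep S) + 6 → Div2 k S := by
  classical
  intro n
  induction n using Nat.strong_induction_on with
  | _ n ih =>
  intro S hSn hS hl hn
  have hl2 : 2 * k + 4 ≤ S.card := by
    by_contra hlt
    have h1 := dep_le k (S.card - (2 * k + 2)) S hS (by omega)
    omega
  by_cases hnl : ∀ i : S, ∃ y ∈ dep S, y i ≠ 0
  swap
  · push Not at hnl
    obtain ⟨i, hi⟩ := hnl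
    obtain ⟨h3, h4⟩ := rem_loop S i hi
    exact Div2.mono (ih (S \ pts S {i}).card (by omega) _ rfl (hS.mono sdiff_subset) (by omega)
      (by omega)) sdiff_subset
  by_cases hdist : ∀ i j : S, i ≠ j → ∀ c : ℝ, 0 < c → ∃ y ∈ dep S, y j ≠ c * y i
  · have nice : Nice (dep S) := ⟨⟨fun _ => 1, fun _ => one_pos, fun y hy => by
      simpa using ((mem_dep S y).mp hy).1⟩, hnl, hdist⟩
    obtain ⟨y, hy, hnz, hr⟩ := Pool.Agent.Y584.DV.Nice.nice_case (dep S) nice (dist2 S) k (by omega)
      (hypA_of_hypG k S hS) (by rw [Fintype.card_coe]; exact hl2)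
      (by rw [Fintype.card_coe]; exact hn) (Or.inl hk)
    exact geoDim S k (by omega) y hy hnz hr
  · push Not at hdist
    obtain ⟨i, j, hij, c, hc, hpar⟩ := hdist
    obtain ⟨h3, h4⟩ := rem_pair S i j hij c hpar
    exact Div2.mono (ih (S \ pts S {i, j}).card (by omega) _ rfl (hS.mono sdiff_subset) (by omega)
      (by omega)) sdiff_subset

theorem rec3 : ∀ n : ℕ, ∀ S : Finset E, S.card = n → HypG 3 S →
    S.card ≤ 2 * finrank ℝ (dep S) → 6 ≤ finrank ℝ (dep S) → 8 ≤ S.card → Div2 3 S := by
  classical
  intro n
  induction n using Nat.strong_induction_on with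
  | _ n ih =>
  intro S hSn hS hn hl hS8
  have hl2 : finrank ℝ (dep S) + 5 ≤ S.card := by
    have h1 := dep_le 3 (S.card - 8) S hS (by omega)
    omega
  by_cases hnl : ∀ i : S, ∃ y ∈ dep S, y i ≠ 0
  swap
  · push Not at hnl
    obtain ⟨i, hi⟩ := hnl
    obtain ⟨h3, h4⟩ := rem_loop S i hi
    exact Div2.mono (ih (S \ pts S {i}).card (by omega) _ rfl (hS.mono sdiff_subset) (by omega)
      (by omega) (by omega)) sdiff_subset
  have hwt : ∃ w : S → ℝ, (∀ i, 0 < w i) ∧ ∀ y ∈ dep S, ∑ i, w i * y i = 0 :=
    ⟨fun _ => 1, fun _ => one_pos, fun y hy => by simpa using ((mem_dep S y).mp hy).1⟩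
  by_cases hdist : ∀ i j : S, i ≠ j → ∀ c : ℝ, 0 < c → ∃ y ∈ dep S, y j ≠ c * y i
  · have nice : Nice (dep S) := ⟨hwt, hnl, hdist⟩
    obtain ⟨y, hy, hnz, hr⟩ := Pool.Agent.Y584.DV.Nice.nice_case (dep S) nice (dist2 S) 3 (by omega)
      (hypA_of_hypG 3 S hS) (by rw [Fintype.card_coe]; omega)
      (by rw [Fintype.card_coe]; omega) (Or.inr (by omega))
    exact geoDim S 3 (by omega) y hy hnz hr
  · push Not at hdist
    obtain ⟨a, a', haa, c, hc, hpar⟩ := hdist
    obtain ⟨h3, h4⟩ := rem_pair S a a' haa c hpar
    by_cases h7 : 7 ≤ finrank ℝ (dep S)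
    · exact Div2.mono (ih (S \ pts S {a, a'}).card (by omega) _ rfl (hS.mono sdiff_subset)
        (by omega) (by omega) (by omega)) sdiff_subset
    · -- rank six
      have hl6 : finrank ℝ (dep S) = 6 := by omega
      have hS' : HypG 3 (S \ pts S {a, a'}) := hS.mono sdiff_subset
      have h12 : S.card = 12 := by
        by_contra hne
        have h11 : S.card = 11 := by omega
        have h5 := dep_le 3 1 _ hS' (by omega)
        omega
      -- no further positively proportional pair
      have hno : ∀ i j : S, i ≠ j → i ≠ a' → j ≠ a' → ∀ c : ℝ, 0 < c →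
          ∃ y ∈ dep S, y j ≠ c * y i := by
        by_contra hcon
        push Not at hcon
        obtain ⟨i, j, hij, hia, hja, t, ht, hpar2⟩ := hcon
        by_cases hmeet : i = a ∨ j = a
        · -- three proportional coordinates
          obtain ⟨b, hba, hba', s, hs⟩ : ∃ b : S, b ≠ a ∧ b ≠ a' ∧ ∃ s : ℝ,
              ∀ y ∈ dep S, y b = s * y a := by
            rcases hmeet with rfl | rfl
            · exact ⟨j, hij.symm, hja, t, hpar2⟩
            · refine ⟨i, hij, hia, t⁻¹, ?_⟩
              intro y hy
              rw [hpar2 y hy, ← mul_assoc, inv_mul_cancel₀ ht.ne', one_mul]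
          have g1 : Lz (dep S) {a} ≤ Lz (dep S) {a, a', b} := by
            intro y hy
            refine ⟨hy.1, ?_⟩
            intro x hx
            have hya : y a = 0 := hy.2 a (mem_singleton_self _)
            rw [mem_insert, mem_insert, mem_singleton] at hx
            rcases hx with rfl | rfl | rfl
            · exact hya
            · rw [hpar y hy.1, hya, mul_zero]
            · rw [hs y hy.1, hya, mul_zero]
          have g2 := Submodule.finrank_mono g1
          have g3 := finrank_sub S {a, a', b}
          have g5 := Lz1 S a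
          have g4 := card_sdiff_pts S {a, a', b}
          rw [card_eq_three.mpr ⟨a, a', b, haa, hba.symm, hba'.symm, rfl⟩] at g4
          have g6 := dep_le 3 1 (S \ pts S {a, a', b}) (hS.mono sdiff_subset) (by omega)
          omega
        · -- two disjoint pairs
          push Not at hmeet
          have g1 : Lz (dep S) {a, i} ≤ Lz (dep S) {a, a', i, j} := by
            intro y hy
            refine ⟨hy.1, ?_⟩
            intro x hx
            have hya : y a = 0 := hy.2 a (mem_insert_self _ _)
            have hyi : y i = 0 := hy.2 i (mem_insert_of_mem (mem_singleton_self _))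
            rw [mem_insert, mem_insert, mem_insert, mem_singleton] at hx
            rcases hx with rfl | rfl | rfl | rfl
            · exact hya
            · rw [hpar y hy.1, hya, mul_zero]
            · exact hyi
            · rw [hpar2 y hy.1, hyi, mul_zero]
          have g2 := Submodule.finrank_mono g1
          have g3 := finrank_sub S {a, a', i, j}
          have g5 := rk_le_card (dep S) {a, i}
          have g6 : ({a, i} : Finset S).card ≤ 2 := card_le_two
          simp only [rk] at g5
          have g4 := card_sdiff_pts S {a, a', i, j}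
          have g7 : ({a, a', i, j} : Finset S).card = 4 := by
            rw [card_insert_of_notMem, card_insert_of_notMem, card_pair hij]
            · rw [mem_insert, mem_singleton]
              push Not
              exact ⟨hia.symm, hja.symm⟩
            · rw [mem_insert, mem_insert, mem_singleton]
              push Not
              exact ⟨haa, hmeet.1.symm, hmeet.2.symm⟩
          rw [g7] at g4
          have g8 := dep_le 3 0 (S \ pts S {a, a', i, j}) (hS.mono sdiff_subset) (by omega)
          omega
      obtain ⟨y, hy, hnz, hr⟩ := merged_case (dep S) (dist2 S) hwt hnl (hypA_of_hypG 3 S hS)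
        (by rw [Fintype.card_coe]; exact h12) hl6 a a' haa c hc hpar hno
      exact geoDim S 3 (by omega) y hy hnz (by exact_mod_cast hr)

/-- Upper bound in terms of affine dependencies. -/
theorem upper (d k : ℕ) (hk : 3 ≤ k) (hkd : k + 2 ≤ d) (hE : finrank ℝ E = d) (S : Finset E)
    (hS : HypG k S) (hc : 2 * d + 2 * k - 4 ≤ S.card) : Div2 k S := by
  obtain ⟨T, hT, hTc⟩ := exists_subset_card_eq hc
  refine Div2.mono ?_ hT
  have hdim : T.card ≤ finrank ℝ (dep T) + (d + 1) := by
    have h1 := LinearMap.finrank_range_add_finrank_ker (depMap T)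
    have h2 : finrank ℝ (LinearMap.range (depMap T)) ≤ finrank ℝ (ℝ × E) :=
      Submodule.finrank_le _
    rw [Module.finrank_prod, finrank_self, hE] at h2
    have h3 : finrank ℝ (T → ℝ) = T.card := by
      rw [Module.finrank_fintype_fun_eq_card, Fintype.card_coe]
    rw [h3] at h1
    change T.card ≤ finrank ℝ (LinearMap.ker (depMap T)) + (d + 1)
    omega
  rcases Nat.lt_or_ge 3 k with h | h
  · exact rec4 k h _ T rfl (hS.mono hT) (by omega) (by omega)
  · have hk3 : k = 3 := by omega
    subst hk3
    exact rec3 _ T rfl (hS.mono hT) (by omega) (by omega) (by omega)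

end Pool.Agent.Y584.DV.Rec
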